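import Pool.Agent.Helper27.VF.Goals

/-!
# Project VF, packet FRD: the action on the minimal cuts
-/

set_option autoImplicit false

namespace Pool.Agent.Helper53.VF

open Pool.Agent.Helper27.VF

universe u

theorem sep_nonempty {A W : Type u} [Group A] [MulAction A W] {G G₀ : SimpleGraph W} {w : W}
    {p : Ultrafilter W} (h : Stg A G G₀ w p) {k : ℕ} {d : Set W × Set W} (hd : d ∈ SS A G p k) :
    (sep d).Nonempty := by
  by_contra hne
  rw [Set.not_nonempty_iff_eq_empty] at hne
  obtain ⟨hc, _, a, b, ha, hb⟩ := hd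
  obtain ⟨x, hx⟩ := inn_nonempty h ha
  obtain ⟨y, hy⟩ := inn_nonempty h hb
  have hstep : ∀ u v, u ∈ d.1 → G₀.Adj u v → v ∈ d.1 := by
    intro u v hu huv
    by_contra hv
    have h2 : v ∉ d.2 := fun h2 => hc.no u hu v h2 (h.le huv)
    have h3 : v ∈ sep d := mem_sep.2 ⟨hv, h2⟩
    rw [hne] at h3
    exact h3
  have hwalk : ∀ {u v : W}, G₀.Walk u v → u ∈ d.1 → v ∈ d.1 := by
    intro u v q
    induction q with
    | nil => exact id
    | cons hadj _ ih => exact fun hu => ih (hstep _ _ hu hadj)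
  obtain ⟨q⟩ := h.conn.preconnected x y
  exact hc.disj y (hwalk q hx) hy

theorem fixed {A W : Type u} [Group A] [MulAction A W] {G G₀ : SimpleGraph W} {w : W}
    {p : Ultrafilter W} (h : Stg A G G₀ w p) {k : ℕ}
    (ht : ∀ (a : A) (n : ℕ), 0 < n → a ^ n = 1 → a = 1) (g : A) {d : Set W × Set W}
    (hd : d ∈ SS A G p k) (hg : tr g d = d) : g = 1 := by
  obtain ⟨v, hv⟩ := sep_nonempty h hd
  have hstep : ∀ x ∈ sep d, g • x ∈ sep d := by
    intro x hx
    have h1 : g • x ∈ sep (tr g d) := by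
      rw [sep_tr]
      exact ⟨x, hx, rfl⟩
    rwa [hg] at h1
  have hpow : ∀ n : ℕ, g ^ n • v ∈ sep d := by
    intro n
    induction n with
    | zero => simpa using hv
    | succ n ih =>
      rw [pow_succ', mul_smul]
      exact hstep _ ih
  have : Finite (sep d) := hd.1.fin
  obtain ⟨m, n, hmn, he⟩ :=
    Finite.exists_ne_map_eq_of_infinite (fun n : ℕ => (⟨g ^ n • v, hpow n⟩ : sep d))
  have he2 : g ^ m • v = g ^ n • v := congrArg Subtype.val he
  have key : ∀ m n : ℕ, m < n → g ^ m • v = g ^ n • v → g = 1 := by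
    intro m n hlt h2
    have h3 : g ^ n = g ^ m * g ^ (n - m) := by
      rw [← pow_add]
      congr 1
      omega
    rw [h3, mul_smul] at h2
    have h4 : v = g ^ (n - m) • v := smul_left_cancel _ h2
    exact ht g (n - m) (by omega) (h.free _ v h4.symm)
  rcases lt_or_gt_of_ne hmn with h1 | h1
  · exact key m n h1 he2
  · exact key n m h1 he2.symm

theorem frd (hLoc : LocStmt.{u}) (hOrc : OrcStmt.{u}) : FrdStmt.{u} := by
  classical
  intro A W _ _ G G₀ w p h k hk ht
  refine ⟨?_, ?_⟩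
  · obtain ⟨_, 𝓕, hfin, hcov⟩ := hLoc A W G G₀ w p h k hk
    let D : Set W × Set W → Set W × Set W := fun f =>
      if hf : ∃ g : A, tr g f ∈ DD A G p k then tr (Classical.choose hf) f else f
    refine ⟨D '' 𝓕 ∩ DD A G p k, (hfin.image D).inter_of_left _, Set.inter_subset_right, ?_⟩
    intro d hd
    obtain ⟨f, hf, g, hg⟩ := hcov d hd.1
    have hex : ∃ g : A, tr g f ∈ DD A G p k := ⟨g, hg ▸ hd⟩
    have hDf : D f = tr (Classical.choose hex) f := dif_pos hex
    have hDm : D f ∈ DD A G p k := by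
      rw [hDf]
      exact Classical.choose_spec hex
    have he : d = tr (g * (Classical.choose hex)⁻¹) (D f) := by
      rw [hDf, tr_tr, inv_mul_cancel_right]
      exact hg
    refine ⟨D f, ⟨⟨f, hf, rfl⟩, hDm⟩, g * (Classical.choose hex)⁻¹, ?_, he⟩
    exact hOrc A W G G₀ w p h k hk _ (D f) hDm (he ▸ hd)
  · intro g d hd hg
    exact fixed h ht g hd.1 hg

end Pool.Agent.Helper53.VF
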