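import Pool.Agent.Helper96.VF.GoalsB

/-!
# Project VF (MP_6829b3_nt), packet BRB
-/

set_option autoImplicit false

open Pool.Agent.Helper33.IR (rr ss om ze)

namespace Pool.Agent.Helper53.VF

open Pool.Agent.Helper96.VF

theorem lg (N b : ℕ) (h1 : 3 ^ b ≤ N) (h2 : N < 3 * 3 ^ b) : Nat.log 3 N = b := by
  have h3 : 0 < 3 ^ b := Nat.pow_pos (by norm_num)
  exact (Nat.log_eq_iff (Or.inr ⟨by norm_num, by omega⟩)).2
    ⟨h1, by rw [pow_succ]; omega⟩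

theorem lg' (N : ℕ) (hN : 0 < N) : 3 ^ Nat.log 3 N ≤ N ∧ N < 3 * 3 ^ Nat.log 3 N := by
  refine ⟨Nat.pow_log_le_self 3 (by omega), ?_⟩
  have := Nat.lt_pow_succ_log_self (b := 3) (by norm_num) N
  rw [pow_succ] at this
  omega

theorem c1 (j k a c : ℕ) (hk : Nat.log 3 (4 ^ j) = k) (hc : 0 < c) :
    (a : ℚ) / c < ss j ↔ a * 3 ^ k < c * 4 ^ j := by
  unfold ss
  rw [hk, div_lt_div_iff₀ (by exact_mod_cast hc) (by positivity)]
  constructor
  · intro h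
    have h' : (a : ℚ) * 3 ^ k < c * 4 ^ j := by linarith only [h]
    exact_mod_cast h'
  · intro h
    have h' : (a : ℚ) * 3 ^ k < c * 4 ^ j := by exact_mod_cast h
    linarith only [h']

theorem c2 (j k a c : ℕ) (hk : Nat.log 3 (4 ^ j) = k) (hc : 0 < c) :
    ss j < (a : ℚ) / c ↔ c * 4 ^ j < a * 3 ^ k := by
  unfold ss
  rw [hk, div_lt_div_iff₀ (by positivity) (by exact_mod_cast hc)]
  constructor
  · intro h
    have h' : (c : ℚ) * 4 ^ j < a * 3 ^ k := by linarith only [h]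
    exact_mod_cast h'
  · intro h
    have h' : (c : ℚ) * 4 ^ j < a * 3 ^ k := by exact_mod_cast h
    linarith only [h']

theorem c3 (j k a c : ℕ) (hk : Nat.log 3 (4 ^ j) = k) (hc : 0 < c) :
    ss j ≤ (a : ℚ) / c ↔ c * 4 ^ j ≤ a * 3 ^ k := by
  rw [← not_lt, ← not_lt, c1 j k a c hk hc]

theorem gBRB : BRB := by
  intro j
  refine ⟨?_, ?_, ?_, ?_⟩
  · have e1 : (1 : ℚ) = ((1 : ℕ) : ℚ) / ((1 : ℕ) : ℚ) := by norm_num
    have e2 : (3 / 2 : ℚ) = ((3 : ℕ) : ℚ) / ((2 : ℕ) : ℚ) := by norm_num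
    rw [e2]
    constructor
    · rintro ⟨b, h1, h2⟩
      have hk : Nat.log 3 (4 ^ j) = b := lg _ b (by omega) (by omega)
      rw [e1, c1 j b 1 1 hk (by norm_num), c2 j b 3 2 hk (by norm_num)]
      omega
    · rw [e1, c1 j _ 1 1 rfl (by norm_num), c2 j _ 3 2 rfl (by norm_num)]
      rintro ⟨h1, h2⟩
      exact ⟨Nat.log 3 (4 ^ j), by omega, by omega⟩
  · have e2 : (2 : ℚ) = ((2 : ℕ) : ℚ) / ((1 : ℕ) : ℚ) := by norm_num
    rw [e2]
    have hp : 4 ^ (j + 1) = 4 * 4 ^ j := by rw [pow_succ]; ring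
    constructor
    · rintro ⟨b, h1, h2⟩
      have hne : 4 * 4 ^ j ≠ 3 * 3 ^ b := by
        intro h
        have h3 : Odd (3 * 3 ^ b) := Odd.mul (by decide) (Odd.pow (by decide))
        have h4 : Even (4 * 4 ^ j) := Even.mul_right (by decide) _
        rw [h] at h4
        exact (Nat.not_even_iff_odd.2 h3) h4
      have hk : Nat.log 3 (4 ^ (j + 1)) = b := lg _ b (by omega) (by omega)
      rw [c1 (j + 1) b 2 1 hk (by norm_num)]
      omega
    · rw [c1 (j + 1) _ 2 1 rfl (by norm_num)]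
      intro h1
      have := (lg' (4 ^ (j + 1)) (by positivity)).2
      exact ⟨Nat.log 3 (4 ^ (j + 1)), by omega, by omega⟩
  · have e1 : (10 / 9 : ℚ) = ((10 : ℕ) : ℚ) / ((9 : ℕ) : ℚ) := by norm_num
    have e2 : (4 / 3 : ℚ) = ((4 : ℕ) : ℚ) / ((3 : ℕ) : ℚ) := by norm_num
    rw [e1, e2]
    have hp : 4 ^ (j + 2) = 16 * 4 ^ j := by rw [pow_add]; ring
    constructor
    · rintro ⟨b, h1, h2⟩
      have hb : 3 ^ (b + 2) = 9 * 3 ^ b := by rw [pow_add]; ring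
      have hk : Nat.log 3 (4 ^ (j + 2)) = b + 2 := lg _ (b + 2) (by omega) (by omega)
      rw [c1 (j + 2) _ 10 9 hk (by norm_num), c2 (j + 2) _ 4 3 hk (by norm_num)]
      omega
    · rw [c1 (j + 2) _ 10 9 rfl (by norm_num), c2 (j + 2) _ 4 3 rfl (by norm_num)]
      rintro ⟨h1, h2⟩
      have h3 := lg' (4 ^ (j + 2)) (by positivity)
      have h4 : 1 ≤ 4 ^ j := Nat.one_le_pow _ _ (by norm_num)
      have h5 : 2 ≤ Nat.log 3 (4 ^ (j + 2)) := by
        by_contra h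
        have h6 : Nat.log 3 (4 ^ (j + 2)) ≤ 1 := by omega
        have h7 : 3 ^ Nat.log 3 (4 ^ (j + 2)) ≤ 3 ^ 1 := Nat.pow_le_pow_right (by norm_num) h6
        omega
      obtain ⟨b, hb⟩ : ∃ b, Nat.log 3 (4 ^ (j + 2)) = b + 2 := ⟨_, (Nat.sub_add_cancel h5).symm⟩
      rw [hb] at h1 h2
      have hb2 : 3 ^ (b + 2) = 9 * 3 ^ b := by rw [pow_add]; ring
      exact ⟨b, by omega, by omega⟩
  · have e1 : (3 / 2 : ℚ) = ((3 : ℕ) : ℚ) / ((2 : ℕ) : ℚ) := by norm_num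
    have e2 : (9 / 5 : ℚ) = ((9 : ℕ) : ℚ) / ((5 : ℕ) : ℚ) := by norm_num
    rw [e1, e2]
    have h4 : 1 ≤ 4 ^ j := Nat.one_le_pow _ _ (by norm_num)
    constructor
    · rintro ⟨b, h1, h2⟩
      have hb0 : b ≠ 0 := by
        rintro rfl
        rw [pow_zero] at h1 h2
        omega
      obtain ⟨c, rfl⟩ : ∃ c, b = c + 1 := ⟨b - 1, by omega⟩
      have hc : 3 ^ (c + 1) = 3 * 3 ^ c := by rw [pow_succ]; ring
      have hk : Nat.log 3 (4 ^ j) = c := lg _ c (by omega) (by omega)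
      rw [c1 j _ 3 2 hk (by norm_num), c3 j _ 9 5 hk (by norm_num)]
      omega
    · rw [c1 j _ 3 2 rfl (by norm_num), c3 j _ 9 5 rfl (by norm_num)]
      rintro ⟨h1, h2⟩
      have hc : 3 ^ (Nat.log 3 (4 ^ j) + 1) = 3 * 3 ^ Nat.log 3 (4 ^ j) := by rw [pow_succ]; ring
      exact ⟨Nat.log 3 (4 ^ j) + 1, by omega, by omega⟩

end Pool.Agent.Helper53.VF
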