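import Pool.Agent.Helper96.VF.Goals

/-!
# Project VF (MP_6829b3_nt), packet GS2
-/

set_option autoImplicit false

namespace Pool.Agent.Helper53.VF

open Pool.Agent.Helper96.VF

theorem logdiv (B n k e : ℕ) (hB : 1 < B) (hk : 0 < k) (h1 : B ^ e * k ≤ n)
    (h2 : n < B ^ (e + 1) * k) : Nat.log B (n / k) = e := by
  have h3 : B ^ e ≤ n / k := (Nat.le_div_iff_mul_le hk).2 h1
  have h4 : n / k < B ^ (e + 1) := (Nat.div_lt_iff_lt_mul hk).2 h2
  have h5 : n / k ≠ 0 := by
    have : 0 < B ^ e := Nat.pow_pos (by omega)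
    omega
  exact (Nat.log_eq_iff (Or.inr ⟨hB, h5⟩)).2 ⟨h3, h4⟩

theorem half (n m p q : ℕ) (hm : 0 < m) (h : Co n m p q) :
    H (n / m / 2) + (if 2 * p ≤ n then 0 else 1) + (if 2 * q ≤ n then 0 else 1) = H (n / m) ∧
      2 ≤ H (n / m) := by
  obtain ⟨⟨j, hp⟩, ⟨b, hq⟩, h1, h2, h3, h4⟩ := h
  have e4 : 4 ^ (j + 1) * m = 4 * p := by rw [hp, pow_succ]; ring
  have e3 : 3 ^ (b + 1) * m = 3 * q := by rw [hq, pow_succ]; ring
  have l4 : Nat.log 4 (n / m) = j := logdiv 4 n m j (by norm_num) hm (by omega) (by omega)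
  have l3 : Nat.log 3 (n / m) = b := logdiv 3 n m b (by norm_num) hm (by omega) (by omega)
  have hpm : m ≤ p := by
    rw [hp]
    exact Nat.le_mul_of_pos_left m (Nat.pow_pos (by norm_num))
  have hqm : m ≤ q := by
    rw [hq]
    exact Nat.le_mul_of_pos_left m (Nat.pow_pos (by norm_num))
  have h0 : n / m ≠ 0 := by
    have : 1 ≤ n / m := (Nat.le_div_iff_mul_le hm).2 (by omega)
    omega
  have hH : H (n / m) = b + j + 2 := by
    unfold H
    rw [if_neg h0, l3, l4]
  refine ⟨?_, by omega⟩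
  rw [hH, Nat.div_div_eq_div_mul]
  by_cases hn : n < m * 2
  · have h00 : n / (m * 2) = 0 := Nat.div_eq_of_lt hn
    have hj : j = 0 := by
      rcases Nat.eq_zero_or_pos j with h | h
      · exact h
      · exfalso
        obtain ⟨i, rfl⟩ : ∃ i, j = i + 1 := ⟨j - 1, by omega⟩
        have h5 : 1 ≤ 4 ^ i := Nat.one_le_pow _ _ (by norm_num)
        have h6 : 4 * m ≤ 4 ^ (i + 1) * m := Nat.mul_le_mul_right m (by rw [pow_succ]; omega)
        omega
    have hb : b = 0 := by
      rcases Nat.eq_zero_or_pos b with h | h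
      · exact h
      · exfalso
        obtain ⟨i, rfl⟩ : ∃ i, b = i + 1 := ⟨b - 1, by omega⟩
        have h5 : 1 ≤ 3 ^ i := Nat.one_le_pow _ _ (by norm_num)
        have h6 : 3 * m ≤ 3 ^ (i + 1) * m := Nat.mul_le_mul_right m (by rw [pow_succ]; omega)
        omega
    rw [h00]
    have : H 0 = 0 := by simp [H]
    rw [this, if_neg (by omega), if_neg (by omega), hj, hb]
  · have h00 : n / (m * 2) ≠ 0 := by
      have : 1 ≤ n / (m * 2) := (Nat.le_div_iff_mul_le (by omega)).2 (by omega)
      omega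
    have a4 : Nat.log 4 (n / (m * 2)) + (if 2 * p ≤ n then 0 else 1) = j := by
      by_cases hc : 2 * p ≤ n
      · rw [if_pos hc]
        have := logdiv 4 n (m * 2) j (by norm_num) (by omega)
          (by rw [← mul_assoc, ← hp]; omega) (by rw [← mul_assoc, e4]; omega)
        omega
      · rw [if_neg hc]
        have hj : j ≠ 0 := by
          rintro rfl
          rw [pow_zero, one_mul] at hp
          omega
        obtain ⟨i, rfl⟩ : ∃ i, j = i + 1 := ⟨j - 1, by omega⟩
        have e5 : 4 * (4 ^ i * m) = p := by rw [hp, pow_succ]; ring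
        have := logdiv 4 n (m * 2) i (by norm_num) (by omega)
          (by rw [← mul_assoc]; omega) (by rw [← mul_assoc, ← hp]; omega)
        omega
    have a3 : Nat.log 3 (n / (m * 2)) + (if 2 * q ≤ n then 0 else 1) = b := by
      by_cases hc : 2 * q ≤ n
      · rw [if_pos hc]
        have := logdiv 3 n (m * 2) b (by norm_num) (by omega)
          (by rw [← mul_assoc, ← hq]; omega) (by rw [← mul_assoc, e3]; omega)
        omega
      · rw [if_neg hc]
        have hj : b ≠ 0 := by
          rintro rfl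
          rw [pow_zero, one_mul] at hq
          omega
        obtain ⟨i, rfl⟩ : ∃ i, b = i + 1 := ⟨b - 1, by omega⟩
        have e5 : 3 * (3 ^ i * m) = q := by rw [hq, pow_succ]; ring
        have := logdiv 3 n (m * 2) i (by norm_num) (by omega)
          (by rw [← mul_assoc]; omega) (by rw [← mul_assoc, ← hq]; omega)
        omega
    have hH2 : H (n / (m * 2)) = Nat.log 3 (n / (m * 2)) + Nat.log 4 (n / (m * 2)) + 2 := by
      unfold H
      rw [if_neg h00]
    rw [hH2]
    omega

theorem gGS2 : GS2 := by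
  intro n m p q hm h
  obtain ⟨h1, h2⟩ := half n m p q hm h
  refine ⟨?_, h1⟩
  unfold g
  generalize H (n / m / 2) = X at h1 ⊢
  generalize H (n / m) = Y at h1 h2 ⊢
  by_cases hp : 2 * p ≤ n <;> by_cases hq : 2 * q ≤ n
  · rw [if_pos hp, if_pos hq] at h1
    rw [if_pos ⟨hp, hq⟩]
    omega
  · rw [if_pos hp, if_neg hq] at h1
    rw [if_neg (fun h => hq h.2)]
    omega
  · rw [if_neg hp, if_pos hq] at h1
    rw [if_neg (fun h => hp h.1)]
    omega
  · rw [if_neg hp, if_neg hq] at h1
    rw [if_neg (fun h => hp h.1)]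
    omega

end Pool.Agent.Helper53.VF
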